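import Mathlib
import Pool.Graph.R_pool_sql_team_seeded_b677cdb8.E8helper9.RM.Exist

set_option autoImplicit false

/-!
# Subgroups of small corank of a Lehmer group
-/

namespace Pool.Agent.H418.LR

open Pool.Agent.E8helper9.RM
open scoped TensorProduct

variable {n : ℕ}

/-- `ℚ ⊗ M`: every element has a positive multiple of the form `1 ⊗ x` -/
lemma exists_mul_mk {M : Type*} [AddCommGroup M] (w : ℚ ⊗[ℤ] M) :
    ∃ m : ℕ, 0 < m ∧ ∃ x : M, m • w = (1 : ℚ) ⊗ₜ[ℤ] x := by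
  obtain ⟨m, hm, h⟩ := exists_smul_mem_closure (Set.range (fun x : M => (1 : ℚ) ⊗ₜ[ℤ] x)) w
    (by rw [span_mk]; trivial)
  refine ⟨m, hm, ?_⟩
  have h1 : AddSubgroup.closure (Set.range (fun x : M => (1 : ℚ) ⊗ₜ[ℤ] x)) ≤
      (TensorProduct.mk ℤ ℚ M 1).toAddMonoidHom.range := by
    rw [AddSubgroup.closure_le]
    rintro _ ⟨x, rfl⟩
    exact ⟨x, rfl⟩
  obtain ⟨x, hx⟩ := h1 h
  exact ⟨x, hx.symm⟩

/-- the inclusion `ℚ ⊗ Δ → ℚ ⊗ Γ` -/
noncomputable def incl {Δ Γ : Subgroup (Pt n)} (h : Δ ≤ Γ) :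
    ℚ ⊗[ℤ] Additive Δ →ₗ[ℚ] ℚ ⊗[ℤ] Additive Γ :=
  LinearMap.baseChange ℚ (AddMonoidHom.toIntLinearMap (MonoidHom.toAdditive (Subgroup.inclusion h)))

lemma incl_tmul {Δ Γ : Subgroup (Pt n)} (h : Δ ≤ Γ) (q : ℚ) (x : Additive Δ) :
    incl h (q ⊗ₜ[ℤ] x) = q ⊗ₜ[ℤ] (Additive.ofMul (Subgroup.inclusion h (Additive.toMul x))) := by
  rw [incl, LinearMap.baseChange_tmul]
  rfl

lemma incl_injective {Δ Γ : Subgroup (Pt n)} (h : Δ ≤ Γ) : Function.Injective (incl h) := by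
  rw [← LinearMap.ker_eq_bot, LinearMap.ker_eq_bot']
  intro w hw
  obtain ⟨m, hm, x, hx⟩ := exists_mul_mk w
  have h1 : (1 : ℚ) ⊗ₜ[ℤ] (Additive.ofMul (Subgroup.inclusion h (Additive.toMul x))) = 0 := by
    rw [← incl_tmul, ← hx, map_nsmul, hw, smul_zero]
  obtain ⟨k, hk, h2⟩ := tmul_eq_zero h1
  have h3 : k • x = 0 := by
    apply Additive.toMul.injective
    apply Subtype.ext
    exact congrArg (fun z : Additive Γ => ((Additive.toMul z : Γ) : Pt n)) h2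
  have h4 : (k * m) • w = 0 := by
    rw [mul_smul, hx, ← TensorProduct.tmul_smul, h3, TensorProduct.tmul_zero]
  have h5 : ((k * m : ℕ) : ℚ) • w = 0 := by rw [Nat.cast_smul_eq_nsmul]; exact h4
  exact (smul_eq_zero.1 h5).resolve_left (by
    have := Nat.mul_pos hk hm
    exact_mod_cast this.ne')

/-- a group of finite rank with new coordinates, compared with a subgroup of corank less than `n`,
has a character image smaller than its coordinate group -/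
lemma exists_chi_rel {Δ Γ : Subgroup (Pt n)} (hle : Δ ≤ Γ) (hfin : FinRk (Additive Γ))
    (hlt : rk (Additive Γ) < rk (Additive Δ) + n) {y₀ : Qbˣ} (hy₀ : y₀ ∈ coordGroup Γ)
    (hy : ∀ m : ℕ, 0 < m → y₀ ^ m ∉ coordGroup Δ) :
    ∃ v : Fin n → ℤ, v ≠ 0 ∧ Γ.map (chi v) ≠ coordGroup Γ := by
  classical
  have hfd : FiniteDimensional ℚ (ℚ ⊗[ℤ] Additive Γ) := hfin
  have hfdΔ : FiniteDimensional ℚ (ℚ ⊗[ℤ] Additive Δ) :=
    Module.Finite.of_injective (incl hle) (incl_injective hle)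
  replace hlt : Module.finrank ℚ (ℚ ⊗[ℤ] Additive Γ) <
    Module.finrank ℚ (ℚ ⊗[ℤ] Additive Δ) + n := hlt
  set H := coordGroup Γ with hH
  let W : Submodule ℚ (ℚ ⊗[ℤ] Additive H) :=
    Submodule.span ℚ {w | ∃ z : H, (z : Qbˣ) ∈ coordGroup Δ ∧ w = (1 : ℚ) ⊗ₜ[ℤ] Additive.ofMul z}
  let y : Additive H := Additive.ofMul ⟨y₀, hy₀⟩
  have hyW : (1 : ℚ) ⊗ₜ[ℤ] y ∉ W := by
    intro h
    obtain ⟨m, hm, h1⟩ := exists_smul_mem_closure _ _ h
    have h2 : AddSubgroup.closure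
        {w | ∃ z : H, (z : Qbˣ) ∈ coordGroup Δ ∧ w = (1 : ℚ) ⊗ₜ[ℤ] Additive.ofMul z} ≤
        (AddSubgroup.map (TensorProduct.mk ℤ ℚ (Additive H) 1).toAddMonoidHom
          (Subgroup.toAddSubgroup ((coordGroup Δ).subgroupOf H))) := by
      rw [AddSubgroup.closure_le]
      rintro _ ⟨z, hz, rfl⟩
      exact ⟨Additive.ofMul z, hz, rfl⟩
    obtain ⟨z, hz, hzy⟩ := h2 h1
    have hz' : ((Additive.toMul z : H) : Qbˣ) ∈ coordGroup Δ := hz
    have hzy' : (1 : ℚ) ⊗ₜ[ℤ] z = m • ((1 : ℚ) ⊗ₜ[ℤ] y) := hzy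
    have h0 : (1 : ℚ) ⊗ₜ[ℤ] (m • y - z) = 0 := by
      rw [TensorProduct.tmul_sub, hzy', TensorProduct.tmul_smul, sub_self]
    obtain ⟨k, hk, hk0⟩ := tmul_eq_zero h0
    apply hy (m * k) (Nat.mul_pos hm hk)
    rw [nsmul_sub, sub_eq_zero, ← mul_nsmul] at hk0
    have h3 := congrArg (fun z : Additive H => ((Additive.toMul z : H) : Qbˣ)) hk0
    have h4 : y₀ ^ (m * k) = ((Additive.toMul z : H) : Qbˣ) ^ k := h3
    rw [h4]
    exact pow_mem hz' k
  obtain ⟨f, hf, hfW⟩ := Submodule.exists_dual_map_eq_bot_of_notMem hyW inferInstance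
  have hfW' : ∀ z : H, (z : Qbˣ) ∈ coordGroup Δ → f ((1 : ℚ) ⊗ₜ[ℤ] Additive.ofMul z) = 0 := by
    intro z hz
    have h1 : f ((1 : ℚ) ⊗ₜ[ℤ] Additive.ofMul z) ∈ W.map f :=
      ⟨_, Submodule.subset_span ⟨z, hz, rfl⟩, rfl⟩
    rw [hfW] at h1
    exact h1
  let φ : Additive H →+ ℚ :=
    { toFun := fun z => f ((1 : ℚ) ⊗ₜ[ℤ] z)
      map_zero' := by rw [TensorProduct.tmul_zero, map_zero]
      map_add' := fun a b => by rw [TensorProduct.tmul_add, map_add] }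
  let Fm : Additive Γ →+ (Fin n → ℚ) :=
    { toFun := fun x i => φ (Additive.ofMul ⟨((Additive.toMul x : Γ) : Pt n) i,
        coord_mem (Additive.toMul x).2 i⟩)
      map_zero' := by
        funext i
        show φ (Additive.ofMul ⟨1, _⟩) = 0
        exact φ.map_zero
      map_add' := fun a b => by
        funext i
        exact φ.map_add (Additive.ofMul ⟨((Additive.toMul a : Γ) : Pt n) i,
          coord_mem (Additive.toMul a).2 i⟩) (Additive.ofMul ⟨((Additive.toMul b : Γ) : Pt n) i,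
          coord_mem (Additive.toMul b).2 i⟩) }
  let L : ℚ ⊗[ℤ] Additive Γ →ₗ[ℚ] (Fin n → ℚ) := LinearMap.liftBaseChange ℚ Fm.toIntLinearMap
  have hker : LinearMap.range (incl hle) ≤ LinearMap.ker L := by
    rintro _ ⟨w, rfl⟩
    rw [LinearMap.mem_ker]
    induction w using TensorProduct.induction_on with
    | zero => rw [map_zero, map_zero]
    | tmul q x =>
      rw [incl_tmul, LinearMap.liftBaseChange_tmul]
      have h1 : Fm.toIntLinearMap
          (Additive.ofMul (Subgroup.inclusion hle (Additive.toMul x))) = 0 := by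
        funext i
        exact hfW' ⟨((Additive.toMul x : Δ) : Pt n) i, _⟩ (coord_mem (Additive.toMul x).2 i)
      rw [h1, smul_zero]
    | add a b ha hb => rw [map_add, map_add, ha, hb, add_zero]
  have hrange : LinearMap.range L < ⊤ := by
    rw [lt_top_iff_ne_top]
    intro htop
    have h1 := LinearMap.finrank_range_add_finrank_ker L
    rw [htop, finrank_top, Module.finrank_fin_fun] at h1
    have h2 := Submodule.finrank_mono hker
    rw [LinearMap.finrank_range_of_inj (incl_injective hle)] at h2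
    omega
  obtain ⟨e, he, hker⟩ := Submodule.exists_le_ker_of_lt_top _ hrange
  let q : Fin n → ℚ := fun i => e (Pi.single i 1)
  have hq : q ≠ 0 := by
    intro h
    apply he
    apply LinearMap.pi_ext'
    intro i
    apply LinearMap.ext_ring
    exact congrFun h i
  obtain ⟨v, hv, N, hN⟩ := exists_integral q hq
  refine ⟨v, hv, fun heq => hf ?_⟩
  have hmem : y₀ ∈ Γ.map (chi v) := by
    rw [heq]
    exact hy₀
  obtain ⟨γ, hγ, hγy⟩ := hmem
  have h1 : e (L ((1 : ℚ) ⊗ₜ[ℤ] Additive.ofMul (⟨γ, hγ⟩ : Γ))) = 0 := hker ⟨_, rfl⟩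
  have h2 : L ((1 : ℚ) ⊗ₜ[ℤ] Additive.ofMul (⟨γ, hγ⟩ : Γ)) =
      fun i => φ (Additive.ofMul ⟨γ i, coord_mem hγ i⟩) := by
    rw [LinearMap.liftBaseChange_tmul, one_smul]
    rfl
  have h3 : ∀ x : Fin n → ℚ, e x = ∑ i, x i * q i := by
    intro x
    conv_lhs => rw [pi_eq_sum_univ' x]
    rw [map_sum]
    refine Finset.sum_congr rfl fun i _ => ?_
    rw [map_smul, smul_eq_mul]
  rw [h2, h3] at h1
  have h4 : φ y = ∑ i, (v i : ℚ) * φ (Additive.ofMul ⟨γ i, coord_mem hγ i⟩) := by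
    have hyv : y = ∑ i, v i • (Additive.ofMul (⟨γ i, coord_mem hγ i⟩ : H)) := by
      apply Additive.toMul.injective
      apply Subtype.ext
      show y₀ = _
      rw [← hγy, chi_apply, toMul_sum]
      rw [Subgroup.val_finsetProd]
      rfl
    rw [hyv, map_sum]
    refine Finset.sum_congr rfl fun i _ => ?_
    rw [map_zsmul, zsmul_eq_mul]
  show φ y = 0
  rw [h4]
  have h5 : ∑ i, (v i : ℚ) * φ (Additive.ofMul ⟨γ i, coord_mem hγ i⟩) =
      N * ∑ i, φ (Additive.ofMul ⟨γ i, coord_mem hγ i⟩) * q i := by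
    rw [Finset.mul_sum]
    refine Finset.sum_congr rfl fun i _ => ?_
    rw [hN i]
    ring
  rw [h5, h1, mul_zero]

/-- a saturated group of finite rank with new coordinates, compared with a subgroup of corank less
than `n`, is not a Lehmer group -/
theorem not_lehmer_rel (hn : 1 ≤ n) {Δ Γ : Subgroup (Pt n)} (hle : Δ ≤ Γ) (hΓ : IsSaturated Γ)
    (hfin : FinRk (Additive Γ)) (hlt : rk (Additive Γ) < rk (Additive Δ) + n)
    (hnew : ∃ y ∈ coordGroup Γ, ∀ m : ℕ, 0 < m → y ^ m ∉ coordGroup Δ)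
    (K : IntermediateField ℚ Qb) : ¬ IsLehmerGroup K Γ := by
  obtain ⟨y, hy, hy'⟩ := hnew
  obtain ⟨v, hv, hne⟩ := exists_chi_rel hle hfin hlt hy hy'
  exact not_lehmer_of_chi hn (sat_eq hΓ) hfin v hv hne

/-- one more independent point -/
theorem exists_step (hn : 1 ≤ n) (Δ : Subgroup (Pt n)) (hfin : FinRk (Additive Δ)) :
    ∃ Γ : Subgroup (Pt n), Δ ≤ Γ ∧ IsSaturated Γ ∧ FinRk (Additive Γ) ∧
      rk (Additive Γ) = rk (Additive Δ) + 1 ∧
      ∃ y ∈ coordGroup Γ, ∀ m : ℕ, 0 < m → y ^ m ∉ coordGroup Δ := by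
  obtain ⟨F, hF, hFΔ⟩ := exists_finite_coordGroup Δ hfin
  obtain ⟨t, u, hu, hind⟩ := exists_independent_primes F hF 1
  have hind' : ∀ m : ℕ, 0 < m → u 0 ^ m ∉ coordGroup Δ := by
    intro m hm h
    obtain ⟨k, hk, h1⟩ := hFΔ _ h
    have h2 := hind (fun _ => 1) (m * k) (Nat.mul_pos hm hk) (by
      rw [Fin.prod_univ_one, zpow_one, pow_mul]
      exact h1)
    exact one_ne_zero (congrFun h2 0)
  set i₀ : Fin n := ⟨0, hn⟩ with hi₀
  set P : Pt n := Pi.mulSingle i₀ (u 0) with hP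
  have hPi : P i₀ = u 0 := by rw [hP, Pi.mulSingle_eq_same]
  let Γ : Subgroup (Pt n) := sat (Δ ⊔ Subgroup.zpowers P)
  have hle0 : Δ ⊔ Subgroup.zpowers P ≤ Γ := fun x hx => ⟨1, one_pos, by rw [pow_one]; exact hx⟩
  have hle : Δ ≤ Γ := le_sup_left.trans hle0
  have hPΓ : P ∈ Γ := hle0 ((le_sup_right : Subgroup.zpowers P ≤ _) (Subgroup.mem_zpowers P))
  have hsat : IsSaturated Γ := by
    intro x m hm hx
    have h1 : x ∈ sat (sat (Δ ⊔ Subgroup.zpowers P)) := ⟨m, hm, hx⟩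
    rwa [sat_sat] at h1
  have hfdΔ : FiniteDimensional ℚ (ℚ ⊗[ℤ] Additive Δ) := hfin
  set p : ℚ ⊗[ℤ] Additive Γ := (1 : ℚ) ⊗ₜ[ℤ] Additive.ofMul (⟨P, hPΓ⟩ : Γ) with hp
  have hpR : p ∉ LinearMap.range (incl hle) := by
    rintro ⟨w, hw⟩
    obtain ⟨m, hm, x, hx⟩ := exists_mul_mk w
    have h1 : m • p = (1 : ℚ) ⊗ₜ[ℤ] (Additive.ofMul (Subgroup.inclusion hle (Additive.toMul x))) := by
      rw [← hw, ← map_nsmul, hx, incl_tmul]
    rw [hp, ← TensorProduct.tmul_smul, ← sub_eq_zero, ← TensorProduct.tmul_sub] at h1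
    obtain ⟨k, hk, h2⟩ := tmul_eq_zero h1
    rw [nsmul_sub, sub_eq_zero, ← mul_nsmul] at h2
    have h3 := congrArg (fun z : Additive Γ => ((Additive.toMul z : Γ) : Pt n) i₀) h2
    have h4 : P i₀ ^ (m * k) = (((Additive.toMul x : Δ) : Pt n) i₀) ^ k := h3
    apply hind' (m * k) (Nat.mul_pos hm hk)
    rw [← hPi, h4]
    exact pow_mem (coord_mem (Additive.toMul x).2 i₀) k
  have htop : LinearMap.range (incl hle) ⊔ Submodule.span ℚ {p} = ⊤ := by
    rw [eq_top_iff, ← span_mk, Submodule.span_le]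
    rintro _ ⟨x, rfl⟩
    obtain ⟨m, hm, hx⟩ := (Additive.toMul x).2
    obtain ⟨δ, hδ, r, hr, h1⟩ := Subgroup.mem_sup.1 hx
    obtain ⟨k, hk⟩ := Subgroup.mem_zpowers_iff.1 hr
    have h2 : m • x = Additive.ofMul (Subgroup.inclusion hle ⟨δ, hδ⟩) +
        k • Additive.ofMul (⟨P, hPΓ⟩ : Γ) := by
      apply Additive.toMul.injective
      apply Subtype.ext
      show ((Additive.toMul x : Γ) : Pt n) ^ m = δ * P ^ k
      rw [hk, h1]
    have h3 : m • ((1 : ℚ) ⊗ₜ[ℤ] x) =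
        incl hle ((1 : ℚ) ⊗ₜ[ℤ] Additive.ofMul (⟨δ, hδ⟩ : Δ)) + k • p := by
      rw [← TensorProduct.tmul_smul, h2, TensorProduct.tmul_add, incl_tmul]
      congr 1
      exact map_zsmul (TensorProduct.mk ℤ ℚ (Additive Γ) 1) k (Additive.ofMul (⟨P, hPΓ⟩ : Γ))
    have hm0 : (m : ℚ) ≠ 0 := by exact_mod_cast hm.ne'
    have h4 : (1 : ℚ) ⊗ₜ[ℤ] x = (m : ℚ)⁻¹ • (m • ((1 : ℚ) ⊗ₜ[ℤ] x)) := by
      rw [← Nat.cast_smul_eq_nsmul ℚ, smul_smul, inv_mul_cancel₀ hm0, one_smul]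
    show (1 : ℚ) ⊗ₜ[ℤ] x ∈ LinearMap.range (incl hle) ⊔ Submodule.span ℚ {p}
    rw [h4, h3]
    apply Submodule.smul_mem
    apply Submodule.add_mem_sup
    · exact ⟨_, rfl⟩
    · exact zsmul_mem (Submodule.mem_span_singleton_self p) k
  have hfdR : FiniteDimensional ℚ (LinearMap.range (incl hle)) := inferInstance
  have hfinΓ : FiniteDimensional ℚ (ℚ ⊗[ℤ] Additive Γ) := by
    have h1 : FiniteDimensional ℚ
        (LinearMap.range (incl hle) ⊔ Submodule.span ℚ {p} : Submodule ℚ (ℚ ⊗[ℤ] Additive Γ)) :=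
      inferInstance
    rw [htop] at h1
    exact Module.finite_def.2 (Module.Finite.iff_fg.1 h1)
  have hrank : rk (Additive Γ) = rk (Additive Δ) + 1 := by
    show Module.finrank ℚ (ℚ ⊗[ℤ] Additive Γ) = Module.finrank ℚ (ℚ ⊗[ℤ] Additive Δ) + 1
    rw [← finrank_top ℚ (ℚ ⊗[ℤ] Additive Γ), ← htop, Submodule.finrank_sup_span_singleton hpR,
      LinearMap.finrank_range_of_inj (incl_injective hle)]
  refine ⟨Γ, hle, hsat, hfinΓ, hrank, u 0, ?_, hind'⟩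
  rw [← hPi]
  exact coord_mem hPΓ i₀

theorem exists_not_lehmer (hn : 2 ≤ n) (Δ : Subgroup (Pt n)) (hfin : FinRk (Additive Δ)) (k : ℕ)
    (hk : 0 < k) :
    ∃ Γ : Subgroup (Pt n), Δ ≤ Γ ∧ IsSaturated Γ ∧ FinRk (Additive Γ) ∧
      rk (Additive Γ) = rk (Additive Δ) + k ∧ ∀ K, ¬ IsLehmerGroup K Γ := by
  obtain ⟨Γ, h1, h2, h3, h4, h5⟩ : ∃ Δ' : Subgroup (Pt n), Δ ≤ Δ' ∧ FinRk (Additive Δ') ∧
      rk (Additive Δ') = rk (Additive Δ) + (k - 1) ∧ True ∧ True := by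
    clear hk
    induction k with
    | zero => exact ⟨Δ, le_refl _, hfin, by simp, trivial, trivial⟩
    | succ k ih =>
      rcases Nat.eq_zero_or_pos k with h0 | h0
      · subst h0
        exact ⟨Δ, le_refl _, hfin, by simp, trivial, trivial⟩
      · obtain ⟨Δ', h1, h2, h3, -, -⟩ := ih
        obtain ⟨Γ, g1, g2, g3, g4, -⟩ := exists_step (by omega) Δ' h2
        refine ⟨Γ, h1.trans g1, g3, ?_, trivial, trivial⟩
        rw [g4, h3]
        omega
  obtain ⟨Γ', g1, g2, g3, g4, g5⟩ := exists_step (by omega) Γ h2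
  refine ⟨Γ', h1.trans g1, g2, g3, ?_, fun K => ?_⟩
  · rw [g4, h3]
    omega
  · exact not_lehmer_rel (by omega) g1 g2 g3 (by omega) g5 K

end Pool.Agent.H418.LR
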